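import Pool.Agent.Lib.FlatFlag.F

/-!
# Involutions of the ball which are close to the linear one
-/

set_option autoImplicit false

namespace Pool.Agent.Results.MP_c5e618_gt.CloseToLinear

open Pool.Agent.FlatFlag

theorem result (n : ℕ) (t : Ball n → Ball n) (hc : Continuous t)
    (hi : ∀ x, t (t x) = x) (hb : ∀ x : Ball n, Q x.1 = 1 → t x = std x)
    (hl : ∀ x y : Ball n, x ≠ y →
      Real.sqrt (Q (((t x).1 - (std x).1) - ((t y).1 - (std y).1))) <
        2 * Real.sqrt (Q (x.1 - y.1))) :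
    ∃ f : Ball n ≃ₜ Ball n, (∀ x : Ball n, Q x.1 = 1 → f x = x) ∧ ∀ x, f (t x) = std (f x) := by
  obtain ⟨f, hf, he⟩ := conj_of_close t hc hi (fun x hx => congrArg Subtype.val (hb x hx)) (by
    intro x y hxy
    have h1 := hl x y hxy
    have h2 : 2 * Real.sqrt (Q (x.1 - y.1)) = Real.sqrt (4 * Q (x.1 - y.1)) := by
      rw [Real.sqrt_mul (by norm_num)]
      congr 1
      rw [show (4 : ℝ) = 2 ^ 2 by norm_num, Real.sqrt_sq (by norm_num)]
    rw [h2] at h1
    exact (Real.sqrt_lt_sqrt_iff (Q_nonneg _)).1 h1)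
  exact ⟨f, hf, fun x => Subtype.ext (he x)⟩

end Pool.Agent.Results.MP_c5e618_gt.CloseToLinear
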