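import Pool.Agent.Lib.FlatFlag.F

/-!
# Involutions of the ball which extend the point reflection of the sphere

`Ball n` is the closed unit ball of Euclidean space of dimension `n + 1` (for `n = 3` the ball
`B^4` of the problem), `std` the restriction of the linear map which changes the sign of all
coordinates but the last one, `Sub n j` the coordinate ball on which the first `j` coordinates
vanish.
-/

set_option autoImplicit false

namespace Pool.Agent.Results.MP_c5e618_gt.InvariantFlag

open Pool.Agent.FlatFlag

variable {n : ℕ}

/-- the homeomorphism `p` of the ball is the identity on the sphere -/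
def FixesSphere (p : Ball n ≃ₜ Ball n) : Prop := ∀ x : Ball n, Q x.1 = 1 → p x = x

/-- (1) `t` is conjugate to the linear involution by a homeomorphism which preserves the sphere -/
def Conjugate (t : Ball n → Ball n) : Prop :=
  ∃ f : Ball n ≃ₜ Ball n, (∀ x : Ball n, Q (f x).1 = 1 ↔ Q x.1 = 1) ∧ ∀ x, f (t x) = std (f x)

/-- (2) `t` is conjugate to the linear involution by a homeomorphism which fixes the sphere -/
def ConjugateRel (t : Ball n → Ball n) : Prop :=
  ∃ f : Ball n ≃ₜ Ball n, FixesSphere f ∧ ∀ x, f (t x) = std (f x)

/-- (3) after a homeomorphism which fixes the sphere, `t` is linear on the equatorial ball -/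
def LinearOnEquator (t : Ball n → Ball n) : Prop :=
  ∃ p : Ball n ≃ₜ Ball n, FixesSphere p ∧ ∀ x ∈ Sub n 1, t (p x) = p (std x)

/-- (4) `t` leaves a flat flag invariant -/
def PreservesFlag (t : Ball n → Ball n) : Prop :=
  ∃ p : Ball n ≃ₜ Ball n, FixesSphere p ∧ ∀ j ≤ n, Set.MapsTo t (p '' Sub n j) (p '' Sub n j)

theorem result (hn : 1 ≤ n) (t : Ball n → Ball n) (hc : Continuous t)
    (hi : ∀ x, t (t x) = x) (hb : ∀ x : Ball n, Q x.1 = 1 → t x = std x) :
    [Conjugate t, ConjugateRel t, LinearOnEquator t, PreservesFlag t].TFAE :=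
  tfae hn t hc hi hb

end Pool.Agent.Results.MP_c5e618_gt.InvariantFlag
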